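import Pool.Agent.helper65.GD.SpecE

set_option autoImplicit false

namespace Pool.Agent.GD

open Finset Metric Filter Topology

theorem FJB_cv (Q F : ℕ → ℂ) (hQ : Q 0 = 1) (n : ℕ) (h : ∀ m, m < n → F m = 0) :
    cv Q F n = F n := by
  unfold cv
  rw [sum_range_succ, Nat.sub_self, hQ, one_mul]
  rw [sum_eq_zero, zero_add]
  intro r hr
  rw [h r (mem_range.1 hr), mul_zero]

theorem FJB : FJB_stmt := by
  intro p j Q b F hj hjp hQ hR hb hbr
  have h0 : ∀ r, r < j → F r = 0 := by
    intro r
    induction r using Nat.strong_induction_on with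
    | _ r ih =>
      intro hr
      have h1 := FJB_cv Q F hQ r (fun m hm => ih m hm (hm.trans hr))
      rw [← hb r] at h1
      rcases Nat.eq_zero_or_pos r with h2 | h2
      · rw [← h1, h2]
        simp
      · rw [← h1, hbr r h2 (by omega), if_neg (by omega), mul_zero]
  have hFj : F j = j := by
    have h1 := FJB_cv Q F hQ j h0
    rw [← hb j, hbr j hj hjp, if_pos rfl, mul_one] at h1
    exact h1.symm
  refine ⟨h0, hFj, fun r hjr hrp => ?_⟩
  have h1 := hR F r
  rw [← hb r, hbr r (by omega) hrp, if_neg (by omega), mul_zero, zero_sub, norm_neg] at h1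
  have h2 : ∑ m ∈ range r, ‖cv Q F m‖ * ‖F m‖ = (j : ℝ) ^ 2 := by
    rw [sum_eq_single j]
    · rw [← hb j, hbr j hj hjp, if_pos rfl, mul_one, hFj, Complex.norm_natCast]
      ring
    · intro m hm hmj
      rw [← hb m]
      rcases Nat.eq_zero_or_pos m with h3 | h3
      · rw [h3]
        simp
      · rw [hbr m h3 (by have := mem_range.1 hm; omega), if_neg hmj]
        simp
    · intro h3
      exact absurd (mem_range.2 hjr) h3
  rw [h2] at h1
  have h4 : (0 : ℝ) ≤ j := Nat.cast_nonneg j
  exact (sq_le_sq₀ (norm_nonneg _) (by positivity)).1 (by linarith)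

end Pool.Agent.GD
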