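import Pool.Agent.helper65.GD.SpecE

set_option autoImplicit false

namespace Pool.Agent.GD

open Finset Metric Filter Topology

theorem FNP_deg (P : Polynomial ℂ) (a : ℂ) :
    (Polynomial.C a * (Polynomial.X * Polynomial.derivative P)).natDegree ≤ P.natDegree := by
  refine (Polynomial.natDegree_C_mul_le _ _).trans ?_
  rcases Nat.eq_zero_or_pos P.natDegree with h | h
  · rw [Polynomial.eq_C_of_natDegree_eq_zero h]
    simp
  · have h1 := Polynomial.natDegree_derivative_le P
    have h2 := Polynomial.natDegree_mul_le (p := (Polynomial.X : Polynomial ℂ))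
      (q := Polynomial.derivative P)
    rw [Polynomial.natDegree_X] at h2
    omega

theorem FNP (hFNG : FNG_stmt) (hSPQ : SPQ_stmt) : FNP_stmt := by
  intro φ γ P p hφ hP n hn
  obtain ⟨q, hq, hq0, hqre, hqe⟩ := hSPQ φ γ hφ
  refine hFNG φ (fun z => P.eval (φ z)) (fun z => Complex.exp (γ * Complex.I) * q z) γ
    (Polynomial.C (Complex.exp (-(γ * Complex.I))) * (Polynomial.X * Polynomial.derivative P)) p hφ
    ?_ ?_ hqre ((FNP_deg P _).trans hP) ?_ ?_ n hn
  · exact (Polynomial.differentiable P).comp_differentiableOn hφ.analytic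
  · exact (differentiableOn_const _).mul hq
  · simp
  · intro z hz
    have h1 : HasDerivAt φ (deriv φ z) z :=
      (hφ.analytic.differentiableAt (isOpen_ball.mem_nhds hz)).hasDerivAt
    have h2 : HasDerivAt (fun z => P.eval (φ z)) ((Polynomial.derivative P).eval (φ z) * deriv φ z) z :=
      (P.hasDerivAt (φ z)).comp z h1
    rw [h2.deriv, Polynomial.eval_mul, Polynomial.eval_mul, Polynomial.eval_C, Polynomial.eval_X]
    have h3 : Complex.exp (γ * Complex.I) * Complex.exp (-(γ * Complex.I)) = 1 := by
      rw [← Complex.exp_add, add_neg_cancel, Complex.exp_zero]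
    have h4 := hqe z hz
    linear_combination (Polynomial.derivative P).eval (φ z) * h4 -
      q z * (φ z * (Polynomial.derivative P).eval (φ z)) * h3

end Pool.Agent.GD
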